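import Pool.Agent.H91.EL.Targets

/-!
Row `MUL` of `elm_modules` (MP_ee74d2_an): the number of half good walks with given `a, p, x`.
-/

set_option autoImplicit false

namespace Pool.Agent.H4.EL

open Pool.Agent.H83.G Pool.Agent.H91.EL
open scoped RealInnerProductSpace

theorem pf_MUL (hWIN : T_WIN) (hPL2 : T_PL2) (hCAN : T_CAN) : T_MUL := by
  classical
  obtain ⟨CW, hCW, hW⟩ := hWIN
  obtain ⟨C2, hC2, hP⟩ := hPL2
  obtain ⟨CA, hCA, hA⟩ := hCAN
  have hCW0 : 0 < CW := by linarith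
  have hC20 : 0 < C2 := by linarith
  have hCA0 : 0 < CA := by linarith
  have hCW3 : CW ≤ CW ^ 3 := le_self_pow₀ hCW (by norm_num)
  have hC : CW ≤ CA * C2 * CW ^ 3 := by
    have h1 : 1 ≤ CA * C2 := one_le_mul_of_one_le_of_one_le hCA hC2
    calc CW ≤ CW ^ 3 := hCW3
      _ ≤ CA * C2 * CW ^ 3 := le_mul_of_one_le_left (by positivity) h1
  refine ⟨CA * C2 * CW ^ 3, hCW.trans hC, ?_⟩
  intro ι ρ D K r X P η I hcf hr hr1 hCD a p x W hGH
  have hD := hcf.one_le_D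
  have hρ : 1 ≤ ρ := hD.trans (hcf.D_le_K.trans hcf.K_le)
  have hD0 : 0 < D := by linarith
  have hρ0 : 0 < ρ := by linarith
  have hCD' : CW * D ≤ r ^ 4 * ρ := (mul_le_mul_of_nonneg_right hC hD0.le).trans hCD
  rcases W.eq_empty_or_nonempty with hWe | ⟨t0, ht0⟩
  · rw [hWe, Finset.card_empty, Nat.cast_zero]
    positivity
  have h0 := hGH t0 ht0
  have hGG : ∀ t ∈ W, GG ρ D r a (η p) t.1 (η t.2) x := by
    intro t ht
    have h := hGH t ht
    exact ⟨hcf.ball a h.ha, hcf.ball t.1 h.hy, hcf.ball x h.hx, hcf.eta p h.hp, hcf.eta t.2 h.hp',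
      hcf.h0 p h.hp t.1 h.hy a h.ha h.Iyp h.Iap, hcf.h0 t.2 h.hp' x h.hx t.1 h.hy h.Ixp' h.Iyp',
      h.w2, h.ang⟩
  obtain ⟨L, hL⟩ : ∃ L : ℝ, L = CW * D * ρ / r ^ 3 := ⟨_, rfl⟩
  obtain ⟨s, hs⟩ : ∃ s : ℝ, s = CW * D / (r ^ 4 * ρ) := ⟨_, rfl⟩
  have hwin : ∀ t ∈ W, |t.1.2.2 - t0.1.2.2| ≤ L ∧ ‖η t.2 - η t0.2‖ ≤ s := by
    intro t ht
    rw [hL, hs]
    exact hW ρ D r a (η p) x t.1 (η t.2) t0.1 (η t0.2) hρ hD hr hr1 hCD' (hGG t ht) (hGG t0 ht0)
  have hCD1 : 1 ≤ CW * D := one_le_mul_of_one_le_of_one_le hCW hD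
  have hL1 : 1 ≤ L := by
    rw [hL, le_div_iff₀ (by positivity), one_mul]
    have h1 : r ^ 3 ≤ 1 := pow_le_one₀ hr.le hr1
    have h2 : 1 ≤ CW * D * ρ := one_le_mul_of_one_le_of_one_le hCD1 hρ
    linarith
  have hs1 : ρ⁻¹ ≤ s := by
    rw [hs, inv_eq_one_div, div_le_div_iff₀ hρ0 (by positivity), one_mul]
    have h1 : r ^ 4 ≤ 1 := pow_le_one₀ hr.le hr1
    exact mul_le_mul_of_nonneg_right (h1.trans hCD1) hρ0.le
  -- the second components
  have hT := hA ι ρ D K X P η I hcf x h0.hx (η t0.2) s hs1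
  have hmaps : Set.MapsTo (fun t : Z 2 × ι => t.2) (W : Set (Z 2 × ι))
      (PC P I η x (η t0.2) s : Set ι) := by
    intro t ht
    have ht' : t ∈ W := ht
    have h := hGH t ht'
    show t.2 ∈ PC P I η x (η t0.2) s
    unfold PC
    rw [Finset.mem_filter]
    exact ⟨h.hp', h.Ixp', (hwin t ht').2⟩
  -- the fibres
  have hfib : ∀ b ∈ PC P I η x (η t0.2) s,
      ((W.filter fun t => t.2 = b).card : ℝ) ≤ C2 * D ^ 3 * ρ * L / r := by
    intro b _
    rcases (W.filter fun t => t.2 = b).eq_empty_or_nonempty with he | ⟨t1, ht1⟩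
    · rw [he, Finset.card_empty, Nat.cast_zero]
      positivity
    rw [Finset.mem_filter] at ht1
    have h1 := hGH t1 ht1.1
    rw [ht1.2] at h1
    have hcard : (W.filter fun t => t.2 = b).card =
        ((W.filter fun t => t.2 = b).image fun t => t.1).card := by
      rw [Finset.card_image_of_injOn]
      intro t ht t' ht' heq
      rw [Finset.mem_coe, Finset.mem_filter] at ht ht'
      exact Prod.ext heq (ht.2.trans ht'.2.symm)
    rw [hcard]
    have hY : ∀ z ∈ (W.filter fun t => t.2 = b).image fun t => t.1,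
        z ∈ X ∧ I z p ∧ I z b ∧ |z.2.2 - t0.1.2.2| ≤ L := by
      intro z hz
      rw [Finset.mem_image] at hz
      obtain ⟨t, ht, rfl⟩ := hz
      rw [Finset.mem_filter] at ht
      have h := hGH t ht.1
      rw [ht.2] at h
      exact ⟨h.hy, h.Iyp, h.Iyp', (hwin t ht.1).1⟩
    exact hP ρ D L t0.1.2.2 r (η p) (η b) _ hρ hD hL1 hr hr1 (hcf.eta p h1.hp) (hcf.eta b h1.hp')
      h1.ang (fun z hz z' hz' hne => hcf.sep z (hY z hz).1 z' (hY z' hz').1 hne)
      (fun z hz z' hz' => hcf.h0 p h1.hp z (hY z hz).1 z' (hY z' hz').1 (hY z hz).2.1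
        (hY z' hz').2.1)
      (fun z hz z' hz' => hcf.h0 b h1.hp' z (hY z hz).1 z' (hY z' hz').1 (hY z hz).2.2.1
        (hY z' hz').2.2.1)
      (fun z hz => (hY z hz).2.2.2)
  have hcardW := Finset.card_eq_sum_card_fiberwise hmaps
  have hcr : (W.card : ℝ) = ∑ b ∈ PC P I η x (η t0.2) s,
      ((W.filter fun t => t.2 = b).card : ℝ) := by
    rw [hcardW]
    push_cast
    rfl
  rw [hcr]
  refine (Finset.sum_le_sum hfib).trans ?_
  rw [Finset.sum_const, nsmul_eq_mul]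
  refine (mul_le_mul_of_nonneg_right hT (by positivity)).trans (le_of_eq ?_)
  rw [hL, hs]
  field_simp

end Pool.Agent.H4.EL
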